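import Mathlib
import Pool.Agent.L0h19.QE.Stm
import Pool.Agent.L0h87.LE.Bas

set_option autoImplicit false

/-! TRA: the quadratic sums at `β` and at `β (3^b / 2^a)^2`. -/

namespace Pool.Agent.L0h61.QE

open Finset Filter Topology
open Pool.Agent.L0h19.QE
open Pool.Agent.L0h87.LE (ee odds Inv MZ RHO HasOddDensity)

theorem ee_lip (x y : ℝ) : ‖ee x - ee y‖ ≤ 2 * Real.pi * |x - y| := by
  have h : ee x - ee y = (ee (x - y) - 1) * ee y := by
    rw [sub_mul, one_mul, ← Pool.Agent.L0h87.LE.ee_add, sub_add_cancel]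
  rw [h, norm_mul, Pool.Agent.L0h87.LE.norm_ee, mul_one]
  exact Pool.Agent.L0h87.LE.norm_ee_sub_one _

/-- within a block the phase is nearly constant -/
theorem block (β : ℝ) (M N i : ℕ) (hi : i < N / (2 * M)) :
    ‖∑ s ∈ range M, ee (β * ((2 * M * i + 2 * s + 1 : ℕ) : ℝ) ^ 2) -
      (M : ℂ) * ee (β * ((2 * M * i : ℕ) : ℝ) ^ 2)‖ ≤ M * (2 * Real.pi * (|β| * (4 * M * N))) := by
  have hM : 0 < M := by
    rcases Nat.eq_zero_or_pos M with h | h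
    · subst h
      simp at hi
    · exact h
  have hle : 2 * M * (i + 1) ≤ N := by
    have h1 : i + 1 ≤ N / (2 * M) := hi
    have h2 := Nat.mul_le_mul_left (2 * M) h1
    exact h2.trans (Nat.mul_div_le N (2 * M))
  have e : ∑ s ∈ range M, ee (β * ((2 * M * i + 2 * s + 1 : ℕ) : ℝ) ^ 2) -
      (M : ℂ) * ee (β * ((2 * M * i : ℕ) : ℝ) ^ 2) =
      ∑ s ∈ range M, (ee (β * ((2 * M * i + 2 * s + 1 : ℕ) : ℝ) ^ 2) -
        ee (β * ((2 * M * i : ℕ) : ℝ) ^ 2)) := by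
    rw [sum_sub_distrib, sum_const, card_range, nsmul_eq_mul]
  rw [e]
  refine (norm_sum_le _ _).trans ?_
  have hterm : ∀ s ∈ range M, ‖ee (β * ((2 * M * i + 2 * s + 1 : ℕ) : ℝ) ^ 2) -
        ee (β * ((2 * M * i : ℕ) : ℝ) ^ 2)‖ ≤ 2 * Real.pi * (|β| * (4 * M * N)) := by
    intro s hs
    rw [mem_range] at hs
    refine (ee_lip _ _).trans ?_
    apply mul_le_mul_of_nonneg_left _ (by positivity)
    have h1 : β * ((2 * M * i + 2 * s + 1 : ℕ) : ℝ) ^ 2 - β * ((2 * M * i : ℕ) : ℝ) ^ 2 =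
        β * ((2 * s + 1 : ℝ) * (4 * M * i + 2 * s + 1)) := by
      push_cast
      ring
    rw [h1, abs_mul]
    apply mul_le_mul_of_nonneg_left _ (abs_nonneg _)
    have hs' : (s : ℝ) + 1 ≤ M := by exact_mod_cast hs
    have hle' : 2 * (M : ℝ) * (i + 1) ≤ N := by exact_mod_cast hle
    have hi0 : (0 : ℝ) ≤ i := Nat.cast_nonneg i
    have hs0 : (0 : ℝ) ≤ s := Nat.cast_nonneg s
    have hM0 : (0 : ℝ) < M := by exact_mod_cast hM
    rw [abs_of_nonneg (by positivity)]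
    have a1 : (2 * s + 1 : ℝ) ≤ 2 * M := by linarith
    have a2 : (4 * M * i + 2 * s + 1 : ℝ) ≤ 2 * N := by nlinarith
    calc (2 * s + 1 : ℝ) * (4 * M * i + 2 * s + 1) ≤ (2 * M) * (2 * N) :=
          mul_le_mul a1 a2 (by positivity) (by positivity)
      _ = 4 * M * N := by ring
  calc ∑ s ∈ range M, ‖ee (β * ((2 * M * i + 2 * s + 1 : ℕ) : ℝ) ^ 2) -
        ee (β * ((2 * M * i : ℕ) : ℝ) ^ 2)‖ ≤ ∑ s ∈ range M, 2 * Real.pi * (|β| * (4 * M * N)) :=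
        sum_le_sum hterm
    _ = _ := by rw [sum_const, card_range, nsmul_eq_mul]

/-- the sum of the values at the beginnings of the blocks -/
noncomputable def XQ (f : ℕ → ℝ) (A I : ℕ) (θ : ℝ) : ℂ :=
  ∑ i ∈ range I, (f (2 * A * i + 1) : ℂ) * ee (θ * (i : ℝ) ^ 2)

theorem XQ_diff {f : ℕ → ℝ} {C : ℝ} (hC : ∀ n, |f n| ≤ C) (A : ℕ) {I J : ℕ} (h : I ≤ J) (θ : ℝ) :
    ‖XQ f A J θ - XQ f A I θ‖ ≤ C * ((J : ℝ) - I) := by
  unfold XQ
  rw [← Finset.sum_range_add_sum_Ico _ h, add_sub_cancel_left]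
  refine (norm_sum_le _ _).trans ?_
  have : ∀ i ∈ Ico I J, ‖(f (2 * A * i + 1) : ℂ) * ee (θ * (i : ℝ) ^ 2)‖ ≤ C := by
    intro i _
    rw [norm_mul, Pool.Agent.L0h87.LE.norm_ee, mul_one, Complex.norm_real, Real.norm_eq_abs]
    exact hC _
  refine (sum_le_sum this).trans (le_of_eq ?_)
  rw [sum_const, Nat.card_Ico, nsmul_eq_mul, Nat.cast_sub h]
  ring

theorem XQ_le {f : ℕ → ℝ} {C : ℝ} (hC : ∀ n, |f n| ≤ C) (A I : ℕ) (θ : ℝ) :
    ‖XQ f A I θ‖ ≤ C * I := by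
  have := XQ_diff hC A (Nat.zero_le I) θ
  have h0 : XQ f A 0 θ = 0 := by simp [XQ]
  rwa [h0, sub_zero, Nat.cast_zero, sub_zero] at this

/-- the block sums are near `M` times the sum over the beginnings -/
theorem blocks {f : ℕ → ℝ} {C : ℝ} (hC : ∀ n, |f n| ≤ C) (β : ℝ) (A M N : ℕ) (hM : 0 < M) :
    ‖∑ i ∈ range (N / (2 * M)), (f (2 * A * i + 1) : ℂ) *
        ∑ s ∈ range M, ee (β * ((2 * M * i + 2 * s + 1 : ℕ) : ℝ) ^ 2) -
      (M : ℂ) * XQ f A (N / (2 * M)) (β * (2 * M) ^ 2)‖ ≤ C * N * (4 * Real.pi * (|β| * (M * N))) := by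
  have hC0 : 0 ≤ C := (abs_nonneg _).trans (hC 0)
  have hMR : (0 : ℝ) < M := by exact_mod_cast hM
  have e : ∑ i ∈ range (N / (2 * M)), (f (2 * A * i + 1) : ℂ) *
        ∑ s ∈ range M, ee (β * ((2 * M * i + 2 * s + 1 : ℕ) : ℝ) ^ 2) -
      (M : ℂ) * XQ f A (N / (2 * M)) (β * (2 * M) ^ 2) =
      ∑ i ∈ range (N / (2 * M)), (f (2 * A * i + 1) : ℂ) *
        (∑ s ∈ range M, ee (β * ((2 * M * i + 2 * s + 1 : ℕ) : ℝ) ^ 2) -
          (M : ℂ) * ee (β * ((2 * M * i : ℕ) : ℝ) ^ 2)) := by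
    unfold XQ
    rw [mul_sum, ← sum_sub_distrib]
    refine sum_congr rfl fun i _ => ?_
    have : β * ((2 * M * i : ℕ) : ℝ) ^ 2 = β * (2 * M) ^ 2 * (i : ℝ) ^ 2 := by
      push_cast
      ring
    rw [this]
    ring
  rw [e]
  refine (norm_sum_le _ _).trans ?_
  have hterm : ∀ i ∈ range (N / (2 * M)), ‖(f (2 * A * i + 1) : ℂ) *
        (∑ s ∈ range M, ee (β * ((2 * M * i + 2 * s + 1 : ℕ) : ℝ) ^ 2) -
          (M : ℂ) * ee (β * ((2 * M * i : ℕ) : ℝ) ^ 2))‖ ≤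
        C * (M * (2 * Real.pi * (|β| * (4 * M * N)))) := by
    intro i hi
    rw [norm_mul, Complex.norm_real, Real.norm_eq_abs]
    exact mul_le_mul (hC _) (block β M N i (mem_range.1 hi)) (norm_nonneg _) hC0
  refine (sum_le_sum hterm).trans ?_
  rw [sum_const, card_range, nsmul_eq_mul]
  have h1 : ((N / (2 * M) : ℕ) : ℝ) ≤ (N : ℝ) / (2 * M) := by
    have := Nat.cast_div_le (α := ℝ) (m := N) (n := 2 * M)
    push_cast at this
    exact this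
  have h2 : 0 ≤ C * (M * (2 * Real.pi * (|β| * (4 * M * N)))) := by positivity
  refine (mul_le_mul_of_nonneg_right h1 h2).trans (le_of_eq ?_)
  field_simp

/-- the two main terms -/
theorem mains {f : ℕ → ℝ} {C : ℝ} (hC : ∀ n, |f n| ≤ C) (D A B N : ℕ) (hA : 0 < A) (hB : 0 < B) (θ : ℝ)
    (hAB : B ≤ A) :
    ‖(B : ℂ) * XQ f D (N / (2 * B)) θ - (A : ℂ) * XQ f D (N / (2 * A)) θ‖ ≤
      C * (((A : ℝ) - B) / A) * N + C * B := by
  have hC0 : 0 ≤ C := (abs_nonneg _).trans (hC 0)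
  have hAR : (0 : ℝ) < A := by exact_mod_cast hA
  have hBR : (0 : ℝ) < B := by exact_mod_cast hB
  have hABR : (B : ℝ) ≤ A := by exact_mod_cast hAB
  have hI : N / (2 * A) ≤ N / (2 * B) := Nat.div_le_div_left (by omega) (by omega)
  have e : (B : ℂ) * XQ f D (N / (2 * B)) θ - (A : ℂ) * XQ f D (N / (2 * A)) θ =
      -(((A : ℝ) - B : ℝ) : ℂ) * XQ f D (N / (2 * A)) θ +
        (B : ℂ) * (XQ f D (N / (2 * B)) θ - XQ f D (N / (2 * A)) θ) := by
    push_cast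
    ring
  rw [e]
  refine (norm_add_le _ _).trans ?_
  rw [norm_mul, norm_mul, norm_neg, Complex.norm_real, Real.norm_eq_abs,
    abs_of_nonneg (by linarith), Complex.norm_natCast]
  have h1 := XQ_le hC D (N / (2 * A)) θ
  have h2 := XQ_diff hC D hI θ
  have h3 : ((N / (2 * A) : ℕ) : ℝ) ≤ (N : ℝ) / (2 * A) := by
    have := Nat.cast_div_le (α := ℝ) (m := N) (n := 2 * A)
    push_cast at this
    exact this
  have h4 : ((N / (2 * B) : ℕ) : ℝ) ≤ (N : ℝ) / (2 * B) := by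
    have := Nat.cast_div_le (α := ℝ) (m := N) (n := 2 * B)
    push_cast at this
    exact this
  have h5 : (N : ℝ) / (2 * A) - 1 ≤ ((N / (2 * A) : ℕ) : ℝ) := by
    have := Nat.lt_succ_floor ((N : ℝ) / ((2 * A : ℕ) : ℝ))
    rw [Nat.floor_div_eq_div] at this
    push_cast at this
    linarith
  have h6 : C * ((N / (2 * A) : ℕ) : ℝ) ≤ C * ((N : ℝ) / (2 * A)) := mul_le_mul_of_nonneg_left h3 hC0
  have h7 : C * (((N / (2 * B) : ℕ) : ℝ) - ((N / (2 * A) : ℕ) : ℝ)) ≤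
      C * ((N : ℝ) / (2 * B) - ((N : ℝ) / (2 * A) - 1)) :=
    mul_le_mul_of_nonneg_left (by linarith) hC0
  have g1 := mul_le_mul_of_nonneg_left (h1.trans h6) (by linarith : 0 ≤ (A : ℝ) - B)
  have g2 := mul_le_mul_of_nonneg_left (h2.trans h7) hBR.le
  refine (add_le_add g1 g2).trans (le_of_eq ?_)
  field_simp
  ring

theorem t_TRA : S_TRA := by
  intro hBLK q f C hC hI a b hqb _ ε hε
  have hC0 : 0 ≤ C := (abs_nonneg _).trans (hC 0)
  obtain ⟨A, hA⟩ : ∃ A : ℕ, A = 2 ^ a := ⟨_, rfl⟩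
  obtain ⟨B, hB⟩ : ∃ B : ℕ, B = 3 ^ b := ⟨_, rfl⟩
  have hA0 : 0 < A := by rw [hA]; positivity
  have hB0 : 0 < B := by rw [hB]; positivity
  have hAr : (A : ℝ) = 2 ^ a := by rw [hA]; push_cast; rfl
  have hBr : (B : ℝ) = 3 ^ b := by rw [hB]; push_cast; rfl
  have hAR : (0 : ℝ) < A := by exact_mod_cast hA0
  have hBR : (0 : ℝ) < B := by exact_mod_cast hB0
  simp only [← hAr, ← hBr]
  obtain ⟨N₁, h₁⟩ := hBLK q f C hC hI a b hqb B (Or.inr hB) (ε / 8) (by positivity)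
  obtain ⟨N₂, h₂⟩ := hBLK q f C hC hI a b hqb A (Or.inl hA) (ε / 8) (by positivity)
  rw [← hA] at h₁ h₂
  obtain ⟨W, hW⟩ : ∃ W : ℝ, W = B + B ^ 2 / A := ⟨_, rfl⟩
  have hW0 : 0 < W := by rw [hW]; positivity
  obtain ⟨N₃, h₃⟩ := exists_nat_ge (C * ((A : ℝ) + B) / (ε / 4))
  refine ⟨ε / (64 * ((C + 1) * W)), by positivity, max (max N₁ N₂) N₃, ?_⟩
  intro N hN β hβ
  have hN1 : N₁ ≤ N := (le_max_left _ _).trans ((le_max_left _ _).trans hN)
  have hN2 : N₂ ≤ N := (le_max_right _ _).trans ((le_max_left _ _).trans hN)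
  have hN3 : N₃ ≤ N := (le_max_right _ _).trans hN
  have hN3' : C * ((A : ℝ) + B) ≤ ε / 4 * N := by
    rw [div_le_iff₀ (by positivity)] at h₃
    have : (N₃ : ℝ) ≤ N := by exact_mod_cast hN3
    nlinarith
  have hNR : (0 : ℝ) ≤ N := Nat.cast_nonneg N
  obtain ⟨β', hβ'⟩ : ∃ β' : ℝ, β' = β * ((B : ℝ) / A) ^ 2 := ⟨_, rfl⟩
  rw [← hβ']
  have k1 := h₁ N hN1 (fun n => ee (β * (n : ℝ) ^ 2)) (fun n => (Pool.Agent.L0h87.LE.norm_ee _).le)
  have k2 := h₂ N hN2 (fun n => ee (β' * (n : ℝ) ^ 2)) (fun n => (Pool.Agent.L0h87.LE.norm_ee _).le)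
  have k3 := blocks hC β A B N hB0
  have k4 := blocks hC β' A A N hA0
  have hph : β' * (2 * (A : ℝ)) ^ 2 = β * (2 * (B : ℝ)) ^ 2 := by
    rw [hβ']
    field_simp
  rw [hph] at k4
  have hS1 : S2 f N β = ∑ n ∈ odds N, (f n : ℂ) * ee (β * (n : ℝ) ^ 2) := rfl
  have hS2 : S2 f N β' = ∑ n ∈ odds N, (f n : ℂ) * ee (β' * (n : ℝ) ^ 2) := rfl
  have k5 : ‖(B : ℂ) * XQ f A (N / (2 * B)) (β * (2 * (B : ℝ)) ^ 2) -
      (A : ℂ) * XQ f A (N / (2 * A)) (β * (2 * (B : ℝ)) ^ 2)‖ ≤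
      C * |(B : ℝ) / A - 1| * N + C * ((A : ℝ) + B) := by
    rcases le_total B A with h | h
    · refine (mains hC A A B N hA0 hB0 _ h).trans ?_
      have hh : (B : ℝ) ≤ A := by exact_mod_cast h
      have e1 : |(B : ℝ) / A - 1| = ((A : ℝ) - B) / A := by
        rw [abs_sub_comm, abs_of_nonneg]
        · field_simp
        · rw [sub_nonneg, div_le_one hAR]
          exact hh
      rw [e1]
      have : 0 ≤ C * (A : ℝ) := by positivity
      linarith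
    · rw [norm_sub_rev]
      refine (mains hC A B A N hB0 hA0 _ h).trans ?_
      have hh : (A : ℝ) ≤ B := by exact_mod_cast h
      have e1 : |(B : ℝ) / A - 1| = ((B : ℝ) - A) / A := by
        rw [abs_of_nonneg]
        · field_simp
        · rw [sub_nonneg, le_div_iff₀ hAR, one_mul]
          exact hh
      have e2 : ((B : ℝ) - A) / B ≤ |(B : ℝ) / A - 1| := by
        rw [e1]
        exact div_le_div_of_nonneg_left (by linarith) hAR hh
      have e3 := mul_le_mul_of_nonneg_right (mul_le_mul_of_nonneg_left e2 hC0) hNR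
      have : 0 ≤ C * (B : ℝ) := by positivity
      linarith
  obtain ⟨Y, hY⟩ : ∃ Y : ℂ, Y = ∑ i ∈ range (N / (2 * B)), (f (2 * A * i + 1) : ℂ) *
        ∑ s ∈ range B, ee (β * ((2 * B * i + 2 * s + 1 : ℕ) : ℝ) ^ 2) := ⟨_, rfl⟩
  obtain ⟨Y', hY'⟩ : ∃ Y' : ℂ, Y' = ∑ i ∈ range (N / (2 * A)), (f (2 * A * i + 1) : ℂ) *
        ∑ s ∈ range A, ee (β' * ((2 * A * i + 2 * s + 1 : ℕ) : ℝ) ^ 2) := ⟨_, rfl⟩
  rw [← hY] at k3
  rw [← hY'] at k4
  have k1' : ‖S2 f N β - Y‖ ≤ ε / 8 * N := by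
    rw [hS1, hY]
    exact k1
  have k2' : ‖S2 f N β' - Y'‖ ≤ ε / 8 * N := by
    rw [hS2, hY']
    exact k2
  obtain ⟨Z, hZ⟩ : ∃ Z : ℂ, Z = (B : ℂ) * XQ f A (N / (2 * B)) (β * (2 * (B : ℝ)) ^ 2) := ⟨_, rfl⟩
  obtain ⟨Z', hZ'⟩ : ∃ Z' : ℂ, Z' = (A : ℂ) * XQ f A (N / (2 * A)) (β * (2 * (B : ℝ)) ^ 2) := ⟨_, rfl⟩
  rw [← hZ] at k3 k5
  rw [← hZ'] at k4 k5
  have e : S2 f N β - S2 f N β' = (S2 f N β - Y) + (Y - Z) + (Z - Z') + -(Y' - Z') + -(S2 f N β' - Y') := by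
    ring
  have tot : ‖S2 f N β - S2 f N β'‖ ≤ ε / 8 * N + C * N * (4 * Real.pi * (|β| * (B * N))) +
      (C * |(B : ℝ) / A - 1| * N + C * ((A : ℝ) + B)) + C * N * (4 * Real.pi * (|β'| * (A * N))) +
      ε / 8 * N := by
    rw [e]
    refine (norm_add_le _ _).trans (add_le_add ?_ (by rw [norm_neg]; exact k2'))
    refine (norm_add_le _ _).trans (add_le_add ?_ (by rw [norm_neg]; exact k4))
    refine (norm_add_le _ _).trans (add_le_add ?_ k5)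
    exact (norm_add_le _ _).trans (add_le_add k1' k3)
  have habs : |β'| = |β| * ((B : ℝ) / A) ^ 2 := by
    rw [hβ', abs_mul, abs_of_nonneg (by positivity : (0 : ℝ) ≤ ((B : ℝ) / A) ^ 2)]
  have m1 : C * N * (4 * Real.pi * (|β| * (B * N))) + C * N * (4 * Real.pi * (|β'| * (A * N))) ≤
      ε / 4 * N := by
    have e1 : C * N * (4 * Real.pi * (|β| * (B * N))) + C * N * (4 * Real.pi * (|β'| * (A * N))) =
        (4 * Real.pi) * (C * W * (|β| * N)) * N := by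
      rw [habs, hW]
      field_simp
    rw [e1]
    apply mul_le_mul_of_nonneg_right _ hNR
    have e2 : C * W * (|β| * N) ≤ ε / 64 := by
      have h1 : C * W * (|β| * N) ≤ (C + 1) * W * (ε / (64 * ((C + 1) * W))) := by
        apply mul_le_mul _ hβ (by positivity) (by positivity)
        apply mul_le_mul_of_nonneg_right _ hW0.le
        linarith
      refine h1.trans (le_of_eq ?_)
      field_simp
    have hpi : Real.pi ≤ 4 := Real.pi_le_four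
    have h0 : 0 ≤ C * W * (|β| * N) := by positivity
    have hpi0 := Real.pi_pos
    calc 4 * Real.pi * (C * W * (|β| * N)) ≤ 16 * (ε / 64) :=
          mul_le_mul (by linarith) e2 h0 (by norm_num)
      _ = ε / 4 := by ring
  have hd : 0 ≤ C * |(B : ℝ) / A - 1| * N := by positivity
  have hfin : (ε + 4 * C * |(B : ℝ) / A - 1|) * N =
      ε / 8 * N + ε / 8 * N + ε / 4 * N + ε / 4 * N + ε / 4 * N + 4 * (C * |(B : ℝ) / A - 1| * N) := by
    ring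
  rw [hfin]
  have hεN : 0 ≤ ε / 4 * N := by positivity
  linarith

end Pool.Agent.L0h61.QE
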